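import Pool.Agent.SH51.Few3Core

/-!
MP_851d43_co (sparse halves): every triangle-free graph on `n` vertices with at most `9 n² / 100`
edges has a set of `⌊n/2⌋` vertices spanning at most `n² / 50` edges.
-/

namespace Pool.Agent.Results.MP_851d43_co.FewEdges

open Pool.Agent.SH51

theorem result {V : Type*} [Fintype V] (G : SimpleGraph V) (hG : G.CliqueFree 3)
    (he : 100 * G.edgeSet.ncard ≤ 9 * Fintype.card V ^ 2) :
    ∃ S : Finset V, S.card = Fintype.card V / 2 ∧
      50 * (G.induce (S : Set V)).edgeSet.ncard ≤ Fintype.card V ^ 2 := by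
  classical
  by_contra hcon
  have hd := dense_of_not G hcon
  have h1 := few3_core hG hd
  rw [B_one] at h1
  have h2 : (100 : ℝ) * (G.edgeSet.ncard : ℝ) ≤ 9 * (Fintype.card V : ℝ) ^ 2 := by
    exact_mod_cast he
  linarith

end Pool.Agent.Results.MP_851d43_co.FewEdges
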