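import Pool.Agent.SH51.Half

/-!
MP_851d43_co (sparse halves): a triangle-free graph on `n` vertices has a sparse half as soon as
some independent set `A`, whose size is at least the average degree (or at least
`(1/2 - √2/5) n`), has at most `n/2` neighbours, or has a neighbourhood of edge density at most
that of the conjecture.
-/

namespace Pool.Agent.Results.MP_851d43_co.FewNeighbours

open Pool.Agent.SH51

theorem result {V : Type*} [Fintype V] (G : SimpleGraph V) (hG : G.CliqueFree 3)
    (A : Set V) (hA : ∀ x ∈ A, ∀ y ∈ A, ¬ G.Adj x y)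
    (hsize : min (2 * (G.edgeSet.ncard : ℝ) / Fintype.card V)
      ((1 / 2 - Real.sqrt 2 / 5) * (Fintype.card V : ℝ)) ≤ A.ncard)
    (hN : 2 * {y | ∃ x ∈ A, G.Adj x y}.ncard ≤ Fintype.card V ∨
      25 * (G.induce {y | ∃ x ∈ A, G.Adj x y}).edgeSet.ncard
        ≤ 2 * {y | ∃ x ∈ A, G.Adj x y}.ncard ^ 2) :
    ∃ S : Finset V, S.card = Fintype.card V / 2 ∧
      50 * (G.induce (S : Set V)).edgeSet.ncard ≤ Fintype.card V ^ 2 := by
  classical
  by_contra hcon
  have hd := dense_of_not G hcon
  set A' : Finset V := A.toFinset with hA'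
  set N' : Finset V := (({y | ∃ x ∈ A, G.Adj x y} : Set V)).toFinset with hN'
  have hAc : A.ncard = A'.card := by rw [hA', Set.ncard_eq_toFinset_card']
  have hNc : {y | ∃ x ∈ A, G.Adj x y}.ncard = N'.card := by
    rw [hN', Set.ncard_eq_toFinset_card']
  have hA2 : ∀ u ∈ A', ∀ v ∈ A', ¬ G.Adj u v := by
    intro u hu v hv
    exact hA u (Set.mem_toFinset.mp hu) v (Set.mem_toFinset.mp hv)
  have hN2 : ∀ v, v ∈ N' ↔ ∃ u ∈ A', G.Adj u v := by
    intro v
    rw [hN', Set.mem_toFinset]
    constructor
    · rintro ⟨x, hx, hxv⟩; exact ⟨x, Set.mem_toFinset.mpr hx, hxv⟩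
    · rintro ⟨x, hx, hxv⟩; exact ⟨x, Set.mem_toFinset.mp hx, hxv⟩
  have hs : B G (fun _ => 1) (fun _ => 1) ≤ A'.card * (Fintype.card V : ℝ) ∨
      (1 / 2 - Real.sqrt 2 / 5) * (Fintype.card V : ℝ) ≤ A'.card := by
    have hpos : (0 : ℝ) < (Fintype.card V : ℝ) := by
      have := indep_lt hd (I := ∅) (by simp)
      simp only [Finset.card_empty, Nat.cast_zero] at this
      linarith
    rw [B_one, ← hAc]
    rcases min_le_iff.mp hsize with h | h
    · left; exact (div_le_iff₀ hpos).mp h
    · right; exact h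
  by_cases hb : 2 * N'.card ≤ Fintype.card V
  · refine core hG hd A' N' hA2 hN2 ?_ hs
    have : (2 : ℝ) * (N'.card : ℝ) ≤ (Fintype.card V : ℝ) := by exact_mod_cast hb
    linarith
  · rcases hN with h | h
    · rw [hNc] at h; exact hb h
    · push Not at hb
      have hb' : (Fintype.card V : ℝ) < 2 * (N'.card : ℝ) := by exact_mod_cast hb
      set n : ℝ := (Fintype.card V : ℝ) with hn
      have hn0 : 0 ≤ n := Nat.cast_nonneg _
      have hN0 : 0 < (N'.card : ℝ) := by linarith
      have hcoe : ((N' : Finset V) : Set V) = {y | ∃ x ∈ A, G.Adj x y} := by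
        rw [hN', Set.coe_toFinset]
      have hBN : B G (ind N') (ind N')
          = 2 * ((G.induce {y | ∃ x ∈ A, G.Adj x y}).edgeSet.ncard : ℝ) := by
        have := B_indicator G N'
        rw [hcoe] at this
        exact this
      have hle : 25 * (((G.induce {y | ∃ x ∈ A, G.Adj x y}).edgeSet.ncard : ℕ) : ℝ)
          ≤ 2 * (N'.card : ℝ) ^ 2 := by
        rw [hNc] at h
        exact_mod_cast h
      have h1 := hd (fun v => n / (2 * (N'.card : ℝ)) * ind N' v) (fun v => by
          have h0 := ind_nonneg N' v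
          have h1 := ind_le_one N' v
          have h2 : n / (2 * (N'.card : ℝ)) ≤ 1 := by
            rw [div_le_one (by positivity)]; exact hb'.le
          refine ⟨by positivity, ?_⟩
          calc n / (2 * (N'.card : ℝ)) * ind N' v ≤ 1 * 1 :=
                mul_le_mul h2 h1 h0 zero_le_one
            _ = 1 := one_mul 1) (by
          rw [← Finset.mul_sum, sum_ind]
          have : n / (2 * (N'.card : ℝ)) * (N'.card : ℝ) = n / 2 := by field_simp
          rw [this])
      rw [B_smul, hBN] at h1
      have h2 : (n / (2 * (N'.card : ℝ))) ^ 2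
          * (2 * ((G.induce {y | ∃ x ∈ A, G.Adj x y}).edgeSet.ncard : ℝ)) ≤ n ^ 2 / 25 := by
        calc (n / (2 * (N'.card : ℝ))) ^ 2
            * (2 * ((G.induce {y | ∃ x ∈ A, G.Adj x y}).edgeSet.ncard : ℝ))
            ≤ (n / (2 * (N'.card : ℝ))) ^ 2 * (2 * (2 * (N'.card : ℝ) ^ 2 / 25)) := by
              refine mul_le_mul_of_nonneg_left ?_ (by positivity)
              linarith
          _ = n ^ 2 / 25 := by field_simp
      linarith

end Pool.Agent.Results.MP_851d43_co.FewNeighbours
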