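import Pool.Agent.SH33.Pair

/-!
MP_851d43_co (sparse halves): every triangle-free graph on `n` vertices has a set of `⌊n/2⌋`
vertices spanning at most `n² / 40` edges.
-/

namespace Pool.Agent.Results.MP_851d43_co.OneFortieth

open Pool.Agent.SH33

theorem result {V : Type*} [Fintype V] (G : SimpleGraph V) (hG : G.CliqueFree 3) :
    ∃ S : Finset V, S.card = Fintype.card V / 2 ∧
      40 * (G.induce (S : Set V)).edgeSet.ncard ≤ Fintype.card V ^ 2 := by
  classical
  by_contra hcon
  have h0 := no_dense hG (dn_of_not G hcon)
  refine hcon ⟨∅, ?_, ?_⟩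
  · rw [h0]; rfl
  · have : IsEmpty V := Fintype.card_eq_zero_iff.1 h0
    have h1 : (G.induce ((∅ : Finset V) : Set V)).edgeSet = ∅ := by
      ext x
      induction x using Sym2.ind with
      | _ a b => exact (this.false a.1).elim
    rw [h1]; simp

end Pool.Agent.Results.MP_851d43_co.OneFortieth
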